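import Mathlib
import Pool.Agent.H67.PSL

namespace Pool.Agent.Results.MP_520f25_al.Brace

open Matrix Pool.Agent.H67 Equiv

/-- perfect group -/
def Perfect (G : Type) [Group G] : Prop := commutator G = ⊤

/-- almost simple group -/
def AlmostSimple (G : Type) [Group G] : Prop :=
  ∃ S : Subgroup G, S.Normal ∧ IsSimpleGroup S ∧ (∃ x ∈ S, ∃ y ∈ S, x * y ≠ y * x) ∧
    Subgroup.centralizer (S : Set G) = ⊥

@[ext] structure Q where
  i : ZMod 15
  j : ZMod 4
  deriving DecidableEq, Fintype

instance : Mul Q := ⟨fun a b => ⟨a.i + 2 ^ a.j.val * b.i, a.j + b.j⟩⟩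
instance : One Q := ⟨⟨0, 0⟩⟩
instance : Inv Q := ⟨fun a => ⟨-(2 ^ (-a.j).val * a.i), -a.j⟩⟩

theorem two_add : ∀ i j : ZMod 4, (2 : ZMod 15) ^ (i + j).val = 2 ^ i.val * 2 ^ j.val := by decide

instance : Group Q := Group.ofLeftAxioms
  (fun a b c => by
    ext
    · show a.i + 2 ^ a.j.val * b.i + 2 ^ (a.j + b.j).val * c.i = a.i + 2 ^ a.j.val * (b.i + 2 ^ b.j.val * c.i)
      rw [two_add]; ring
    · exact add_assoc _ _ _)
  (by decide +kernel) (by decide +kernel)

def ga (q : Q) (x : Fin 5) : Fin 5 :=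
  if x.val < 3 then Fin.ofNat 5 ((2 ^ q.j.val * x.val + q.i.val) % 3) else x
def gb (q : Q) (x : Fin 5) : Fin 5 := Fin.ofNat 5 (2 ^ q.j.val * x.val + q.i.val)

theorem ga_mul : ∀ (a b : Q) (x : Fin 5), ga (a * b) x = ga a (ga b x) := by decide +kernel
theorem gb_mul : ∀ (a b : Q) (x : Fin 5), gb (a * b) x = gb a (gb b x) := by decide +kernel
theorem ga_one : ∀ x, ga 1 x = x := by decide +kernel
theorem gb_one : ∀ x, gb 1 x = x := by decide +kernel

def fa (q : Q) : Perm (Fin 5) := ⟨ga q, ga q⁻¹, fun x => by rw [← ga_mul, inv_mul_cancel, ga_one],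
  fun x => by rw [← ga_mul, mul_inv_cancel, ga_one]⟩
def fb (q : Q) : Perm (Fin 5) := ⟨gb q, gb q⁻¹, fun x => by rw [← gb_mul, inv_mul_cancel, gb_one],
  fun x => by rw [← gb_mul, mul_inv_cancel, gb_one]⟩

theorem fa_mul (a b : Q) : fa (a * b) = fa a * fa b := Equiv.ext (ga_mul a b)
theorem fb_mul (a b : Q) : fb (a * b) = fb a * fb b := Equiv.ext (gb_mul a b)
theorem sg : ∀ a : Q, Perm.sign (fa a * (fb a)⁻¹) = 1 := by decide +kernel
theorem inj0 : ∀ a b : Q, (∀ x, ga a (gb a⁻¹ x) = ga b (gb b⁻¹ x)) → a = b := by decide +kernel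
theorem inj (a b : Q) (h : fa a * (fb a)⁻¹ = fa b * (fb b)⁻¹) : a = b :=
  inj0 a b fun x => DFunLike.congr_fun h x

abbrev A5 := alternatingGroup (Fin 5)

def pr (q : Q) : A5 := ⟨fa q * (fb q)⁻¹, Perm.mem_alternatingGroup.2 (sg q)⟩

theorem pr_bij : Function.Bijective pr := by
  rw [Nat.bijective_iff_injective_and_card]
  refine ⟨fun a b h => inj a b (congrArg Subtype.val h), ?_⟩
  rw [nat_card_alternatingGroup, Nat.card_eq_fintype_card, Nat.card_eq_fintype_card]
  decide +kernel

abbrev F := GaloisField 2 4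

theorem cardF : Nat.card F = 16 := by rw [GaloisField.card 2 4 (by norm_num)]; rfl

theorem ex_z : ∃ z : Fˣ, orderOf z = 15 := by
  obtain ⟨z, hz⟩ := IsCyclic.exists_ofOrder_eq_natCard (α := Fˣ)
  exact ⟨z, by rw [hz, Nat.card_units, cardF]⟩

noncomputable def z : Fˣ := ex_z.choose
theorem oz : orderOf z = 15 := ex_z.choose_spec

theorem p15 (x : F) (hx : x ≠ 0) : x ^ 15 = 1 := by
  have := pow_card_eq_one' (x := Units.mk0 x hx)
  rw [Nat.card_units, cardF] at this
  exact congrArg Units.val this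

theorem p16 (x : F) : x ^ 16 = x := by
  by_cases hx : x = 0
  · simp [hx]
  · rw [pow_succ, p15 x hx, one_mul]

noncomputable def w (i : ZMod 15) : F := (z : F) ^ i.val

theorem w_cast (a : ℕ) : w a = (z : F) ^ a := by
  rw [w, ZMod.val_natCast, ← pow_eq_pow_mod a (p15 _ z.ne_zero)]

theorem w_add (a b : ZMod 15) : w (a + b) = w a * w b := by
  rw [← ZMod.natCast_zmod_val a, ← ZMod.natCast_zmod_val b, ← Nat.cast_add, w_cast, w_cast, w_cast, pow_add]

theorem w_ne (a : ZMod 15) : w a ≠ 0 := pow_ne_zero _ z.ne_zero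

theorem w_one {a : ZMod 15} (h : w a = 1) : a = 0 := by
  have h1 : z ^ a.val = 1 := Units.ext (by simpa [w] using h)
  have h2 := orderOf_dvd_of_pow_eq_one h1
  rw [oz] at h2
  rw [← ZMod.natCast_zmod_val a]
  exact (ZMod.natCast_eq_zero_iff _ _).2 h2

noncomputable def fr (j : ZMod 4) : F →+* F := iterateFrobenius F 2 j.val

theorem fr_app (j : ZMod 4) (x : F) : fr j x = x ^ 2 ^ j.val := rfl

theorem fr_add (i j : ZMod 4) (x : F) : fr (i + j) x = fr i (fr j x) := by
  have h : ∀ i j : ZMod 4, 2 ^ j.val * 2 ^ i.val = 2 ^ (i + j).val ∨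
      2 ^ j.val * 2 ^ i.val = 16 * 2 ^ (i + j).val := by decide
  rw [fr_app, fr_app, fr_app, ← pow_mul]
  rcases h i j with h | h <;> rw [h]
  rw [pow_mul, p16]

theorem fr_w (j : ZMod 4) (a : ZMod 15) : fr j (w a) = w (2 ^ j.val * a) := by
  rw [← ZMod.natCast_zmod_val a, show (2 : ZMod 15) ^ j.val = ((2 ^ j.val : ℕ) : ZMod 15) by push_cast; rfl,
    ← Nat.cast_mul, w_cast, w_cast, fr_app, ← pow_mul, mul_comm]

noncomputable def D (i : ZMod 15) (a : Fin 15) : F := if a = 0 then w i else 1

theorem D_ne (i : ZMod 15) (a : Fin 15) : D i a ≠ 0 := by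
  unfold D; split_ifs
  · exact w_ne i
  · exact one_ne_zero

theorem D_mul (p q : Q) (a : Fin 15) : D (p * q).i a = D p.i a * fr p.j (D q.i a) := by
  unfold D; split_ifs
  · rw [fr_w, ← w_add]; rfl
  · simp

abbrev SL := SpecialLinearGroup (Fin 15) F
abbrev S := ProjectiveSpecialLinearGroup (Fin 15) F

theorem dd (i : ZMod 15) : diagonal (fun a => (D i a)⁻¹) * diagonal (D i) = 1 := by
  rw [diagonal_mul_diagonal, ← diagonal_one]
  congr 1; funext a; exact inv_mul_cancel₀ (D_ne i a)

noncomputable instance : SMul Q SL := ⟨fun q A =>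
  ⟨diagonal (D q.i) * (fr q.j).mapMatrix A.1 * diagonal (fun a => (D q.i a)⁻¹), by
    rw [det_mul, det_mul, ← RingHom.map_det, A.2, map_one, mul_one, mul_comm, ← det_mul, dd, det_one]⟩⟩

theorem smul_coe (q : Q) (A : SL) : (q • A).1 =
    diagonal (D q.i) * (fr q.j).mapMatrix A.1 * diagonal (fun a => (D q.i a)⁻¹) := rfl

theorem smul_app (q : Q) (A : SL) (a b : Fin 15) :
    (q • A).1 a b = D q.i a * fr q.j (A.1 a b) * (D q.i b)⁻¹ := by
  rw [smul_coe, mul_diagonal, diagonal_mul]; rfl

noncomputable instance : MulDistribMulAction Q SL where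
  one_smul A := by
    apply Subtype.ext; ext a b
    have h : ∀ a, D (1 : Q).i a = 1 := fun a => by
      unfold D; split_ifs
      · exact pow_zero _
      · rfl
    rw [smul_app, h, h, fr_app]
    show 1 * _ ^ 2 ^ 0 * _ = _
    simp
  mul_smul p q A := by
    apply Subtype.ext; ext a b
    rw [smul_app, smul_app, smul_app, D_mul, D_mul, map_mul, map_mul, map_inv₀, mul_inv]
    rw [show (p * q).j = p.j + q.j from rfl, fr_add]; ring
  smul_mul q A B := by
    apply Subtype.ext
    show diagonal (D q.i) * (fr q.j).mapMatrix (A.1 * B.1) * diagonal (fun a => (D q.i a)⁻¹) = (q • A).1 * (q • B).1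
    rw [smul_coe, smul_coe, map_mul]
    simp only [Matrix.mul_assoc]
    rw [← Matrix.mul_assoc (diagonal fun a => (D q.i a)⁻¹), dd, Matrix.one_mul]
  smul_one q := by
    apply Subtype.ext
    show diagonal (D q.i) * (fr q.j).mapMatrix 1 * diagonal (fun a => (D q.i a)⁻¹) = 1
    rw [map_one, Matrix.mul_one]
    exact mul_eq_one_comm.1 (dd _)

noncomputable def φ : Q →* MulAut S where
  toFun q := QuotientGroup.congr _ _ (MulDistribMulAction.toMulAut Q SL q)
    (Subgroup.characteristic_iff_map_eq.1 inferInstance _)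
  map_one' := by
    ext s
    obtain ⟨A, rfl⟩ := PSL.π_surj s
    exact congrArg PSL.π (one_smul Q A)
  map_mul' p q := by
    ext s
    obtain ⟨A, rfl⟩ := PSL.π_surj s
    exact congrArg PSL.π (mul_smul p q A)

theorem φ_π (q : Q) (A : SL) : φ q (PSL.π A) = PSL.π (q • A) := rfl

theorem outer (q : Q) (s : S) (h : ∀ t, s * φ q t = t * s) : q = 1 := by
  obtain ⟨g, rfl⟩ := PSL.π_surj s
  have key : ∀ (a b : Fin 15) (hab : a ≠ b) (c : F) (x : Fin 15),
      g.1 x a * (D q.i a * fr q.j c * (D q.i b)⁻¹) = if a = x then c * g.1 b b else 0 := by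
    intro a b hab c x
    let T : SL := SpecialLinearGroup.transvection hab c
    have hT : T * T = 1 := by
      rw [← SpecialLinearGroup.transvection_add, CharTwo.add_self_eq_zero]
      exact Subtype.ext (by simp [SpecialLinearGroup.transvection_coe])
    have h1 := h (PSL.π T)
    rw [φ_π, ← map_mul, ← map_mul, ← mul_inv_eq_one, ← map_inv, ← map_mul, PSL.π_eq_one] at h1
    obtain ⟨u, hu⟩ : ∃ u, u = g * q • T * (T * g)⁻¹ := ⟨_, rfl⟩
    rw [← hu] at h1
    have h2 : g * q • T * g⁻¹ = u * T := by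
      rw [hu]; group
    have h3 : u * u = 1 := by
      have : (u * T) * (u * T) = 1 := by
        rw [← h2]
        have : g * q • T * g⁻¹ * (g * q • T * g⁻¹) = g * (q • T * q • T) * g⁻¹ := by group
        rw [this, ← smul_mul', hT, smul_one]; group
      rwa [mul_assoc, ← mul_assoc T, Subgroup.mem_center_iff.1 h1 T, mul_assoc u T, hT, mul_one] at this
    obtain ⟨r, -, hr⟩ := Matrix.SpecialLinearGroup.mem_center_iff.1 h1
    have h4 : r = 1 := by
      have : u.1 * u.1 = 1 := congrArg Subtype.val h3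
      rw [← hr, ← map_mul] at this
      have h5 : r * r = 1 := by simpa using congrFun (congrFun this 0) 0
      rcases mul_self_eq_one_iff.1 h5 with h | h
      · exact h
      · rw [h, CharTwo.neg_eq]
    have h6 : u = 1 := Subtype.ext (by rw [← hr, h4, map_one]; rfl)
    rw [h6, one_mul, mul_inv_eq_iff_eq_mul] at h2
    have h7 : (q • T).1 = 1 + single a b (D q.i a * fr q.j c * (D q.i b)⁻¹) := by
      ext x y
      rw [smul_app]
      simp only [T, SpecialLinearGroup.transvection_coe, Matrix.add_apply, one_apply, single_apply, map_add]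
      by_cases h1 : x = y
      · subst h1
        have : ¬ (a = x ∧ b = x) := fun h => hab (h.1.trans h.2.symm)
        simp [this, D_ne]
      · by_cases h2 : a = x ∧ b = y
        · obtain ⟨rfl, rfl⟩ := h2
          simp [h1]
        · simp [h1, h2]
    have h8 : g.1 * (q • T).1 = T.1 * g.1 := congrArg Subtype.val h2
    rw [h7, show T.1 = 1 + single a b c from rfl,
      Matrix.mul_add, Matrix.add_mul, Matrix.mul_one, Matrix.one_mul, add_right_inj] at h8
    have h9 := congrFun (congrFun h8 x) b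
    rw [mul_single_apply_same] at h9
    rw [h9]
    split_ifs with hx
    · subst hx; rw [single_mul_apply_same]
    · rw [single_mul_apply_of_ne _ _ _ _ _ (Ne.symm hx)]
  have hd : g.1 = diagonal fun a => g.1 a a := by
    ext x a
    by_cases hx : x = a
    · subst hx; simp
    · have := key a x (Ne.symm hx) 1 x
      rw [if_neg (Ne.symm hx), map_one] at this
      rw [diagonal_apply_ne _ hx]
      simpa [D_ne] using this
  have hdet : ∏ a, g.1 a a = 1 := by rw [← det_diagonal, ← hd, g.2]
  have h1 : ∀ a : Fin 14, g.1 a.succ a.succ = g.1 0 0 * w q.i := by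
    intro a
    have := key 0 a.succ (Fin.succ_ne_zero a).symm 1 0
    simpa [D, Fin.succ_ne_zero] using this.symm
  rw [Fin.prod_univ_succ] at hdet
  simp only [h1, Finset.prod_const, Finset.card_univ, Fintype.card_fin] at hdet
  have h0 : g.1 0 0 ≠ 0 := fun h => by simp [h] at hdet
  have hi : q.i = 0 := by
    apply w_one
    have := p15 _ (mul_ne_zero h0 (w_ne q.i))
    linear_combination this - w q.i * hdet
  have hj : q.j = 0 := by
    have h2 := key 1 2 (by decide) (w 1) 1
    have e1 := h1 0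
    have e2 := h1 1
    change g.1 1 1 = _ at e1
    change g.1 2 2 = _ at e2
    rw [e1, e2, if_pos rfl, fr_w, D, D, if_neg (by decide), if_neg (by decide), one_mul, inv_one, mul_one,
      mul_comm (w 1)] at h2
    have h3 := mul_left_cancel₀ (mul_ne_zero h0 (w_ne q.i)) h2
    have h4 : w (2 ^ q.j.val * 1 - 1) = 1 := by
      apply mul_right_cancel₀ (w_ne 1)
      rw [← w_add, sub_add_cancel, h3, one_mul]
    have h5 := w_one h4
    revert h5
    generalize q.j = j
    revert j
    decide
  exact Q.ext hi hj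

abbrev G := S ⋊[φ] Q

noncomputable def β : G ≃ S × A5 :=
  SemidirectProduct.equivProd.trans (Equiv.prodCongr (Equiv.refl S) (Equiv.ofBijective pr pr_bij))

theorem β1 (g : G) : (β g).1 = g.left := rfl
theorem β2 (g : G) : (β g).2.1 = fa g.right * (fb g.right)⁻¹ := rfl

theorem perf {X N : Type} [Group N] (e : X ≃ N) (h1 : commutator N = ⊤) : @Perfect X e.group := by
  letI := e.group
  have := map_commutator_eq N e.mulEquiv.symm.toMonoidHom
  rw [h1, MonoidHom.range_eq_top.2 e.mulEquiv.symm.surjective,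
    Subgroup.map_top_of_surjective _ e.mulEquiv.symm.surjective] at this
  exact this.symm

theorem result : ∃ (B : Type) (A M : Group B), Finite B ∧
    (∀ a b c : B, M.mul a (A.mul b c) = A.mul (A.mul (M.mul a b) (A.inv a)) (M.mul a c)) ∧
    @Perfect B A ∧ @AlmostSimple B M ∧ ¬ @Perfect B M := by
  have h3 : 3 ≤ Fintype.card (Fin 15) := by simp
  refine ⟨G, β.group, inferInstance, Finite.of_equiv _ β.symm, fun a b c => ?_, ?_, ?_, ?_⟩
  · show a * β.symm (β b * β c) = β.symm (β (β.symm (β (a * b) * β (β.symm (β a)⁻¹))) * β (a * c))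
    simp only [Equiv.apply_symm_apply]
    rw [Equiv.eq_symm_apply]
    obtain ⟨d, hd⟩ : ∃ d, d = β.symm (β b * β c) := ⟨_, rfl⟩
    rw [← hd]
    rw [Equiv.eq_symm_apply] at hd
    have e1 := congrArg Prod.fst hd
    have e2 := congrArg (fun x => x.2.1) hd
    simp only [Prod.fst_mul, Prod.snd_mul, Subgroup.coe_mul, β1, β2] at e1 e2
    refine Prod.ext ?_ (Subtype.ext ?_)
    · simp only [Prod.fst_mul, Prod.fst_inv, β1, SemidirectProduct.mul_left, e1, map_mul]
      group
    · simp only [Prod.snd_mul, Prod.snd_inv, Subgroup.coe_mul, Subgroup.coe_inv, β2,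
        SemidirectProduct.mul_right, fa_mul, fb_mul, _root_.mul_inv_rev]
      rw [mul_assoc, ← mul_assoc (fa d.right), e2]
      group
  · refine perf β ?_
    rw [commutator_def, ← Subgroup.top_prod_top, Subgroup.commutator_prod_prod, ← commutator_def,
      ← commutator_def, PSL.perfect h3, commutator_alternatingGroup_eq_top (by simp)]
  · haveI := PSL.simple (F := F) h3
    refine ⟨SemidirectProduct.inl.range, ?_, ?_, ?_, ?_⟩
    · rw [SemidirectProduct.range_inl_eq_ker_rightHom]; infer_instance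
    · exact (MonoidHom.ofInjective SemidirectProduct.inl_injective).symm.isSimpleGroup
    · obtain ⟨a, b, h⟩ := PSL.noncomm (F := F) h3
      refine ⟨_, ⟨a, rfl⟩, _, ⟨b, rfl⟩, fun e => h (SemidirectProduct.inl_injective (φ := φ) ?_)⟩
      rw [map_mul, map_mul, e]
    · rw [eq_bot_iff]
      intro g hg
      have h : ∀ t, g.left * φ g.right t = t * g.left := fun t => by
        simpa using (congrArg SemidirectProduct.left (hg _ ⟨t, rfl⟩)).symm
      have h1 := outer _ _ h
      have h2 : g.left ∈ Subgroup.center S := Subgroup.mem_center_iff.2 fun t => by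
        simpa [h1] using (h t).symm
      rw [PSL.center h3] at h2
      exact SemidirectProduct.ext h2 h1
  · intro h
    let f : G →* ℤˣ := Perm.sign.comp ((MonoidHom.mk' fa fa_mul).comp SemidirectProduct.rightHom)
    have h1 := Abelianization.commutator_subset_ker f
    rw [show commutator G = ⊤ from h] at h1
    have h2 : Perm.sign (fa ⟨0, 1⟩) = 1 := h1 (Subgroup.mem_top (SemidirectProduct.inr ⟨0, 1⟩))
    revert h2
    decide +kernel

end Pool.Agent.Results.MP_520f25_al.Brace
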